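import Pool.Agent.Y110.FJ.Stm5

/-!
# Groups of locally constant functions: the twisted form as an equivalence

Project FJ (owner helper110).
-/

set_option autoImplicit false

namespace Pool.Agent.Y474.FJ

open Pool.Agent.Y110.FJ

section

variable {X Q A : Type} [Group Q] [Group A] {𝔅 : Set (Set X)} (h𝔅 : IsAlg 𝔅)

/-- constant functions -/
def cst (a : A) : Simp h𝔅 A := ⟨fun _ => a, by
  refine ⟨(Set.finite_singleton a).subset (by rintro _ ⟨x, rfl⟩; rfl), ?_⟩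
  intro b
  by_cases h : a = b
  · have h1 : (fun _ : X => a) ⁻¹' {b} = (∅ : Set X)ᶜ := by
      ext x
      simp [h]
    rw [h1]
    exact h𝔅.compl _ h𝔅.empty
  · have h1 : (fun _ : X => a) ⁻¹' {b} = (∅ : Set X) := by
      ext x
      simp [h]
    rw [h1]
    exact h𝔅.empty⟩

/-- the embedding of the constant functions -/
def emb (θ : Q →* MulAut A) [MulAction Q X] (α : Q →* MulAut (Simp h𝔅 A))
    (hα : ∀ (q : Q) (f : Simp h𝔅 A) (x : X),
      ((α q f : Simp h𝔅 A) : X → A) x = θ q ((f : X → A) (q⁻¹ • x))) :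
    A ⋊[θ] Q →* Simp h𝔅 A ⋊[α] Q where
  toFun g := ⟨cst h𝔅 g.left, g.right⟩
  map_one' := by
    refine SemidirectProduct.ext ?_ ?_
    · refine Subtype.ext (funext fun x => ?_)
      rfl
    · rfl
  map_mul' g g' := by
    refine SemidirectProduct.ext ?_ ?_
    · refine Subtype.ext (funext fun x => ?_)
      show (g * g').left = (cst h𝔅 g.left * α g.right (cst h𝔅 g'.left) : Simp h𝔅 A).1 x
      rw [SemidirectProduct.mul_left]
      show _ = g.left * ((α g.right (cst h𝔅 g'.left) : Simp h𝔅 A) : X → A) x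
      rw [hα]
      rfl
    · rfl

theorem emb_injective [Nonempty X] (θ : Q →* MulAut A) [MulAction Q X]
    (α : Q →* MulAut (Simp h𝔅 A)) (hα : ∀ (q : Q) (f : Simp h𝔅 A) (x : X),
      ((α q f : Simp h𝔅 A) : X → A) x = θ q ((f : X → A) (q⁻¹ • x))) :
    Function.Injective (emb h𝔅 θ α hα) := by
  intro g g' h
  obtain ⟨x⟩ := ‹Nonempty X›
  refine SemidirectProduct.ext ?_ ?_
  · have h1 := congrArg (fun y : Simp h𝔅 A ⋊[α] Q => (y.left : X → A) x) h
    exact h1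
  · exact congrArg (fun y : Simp h𝔅 A ⋊[α] Q => y.right) h

/-- the translation of a function -/
def tr [MulAction Q X] (hQ : ∀ (q : Q), ∀ S ∈ 𝔅, (fun x => q • x) ⁻¹' S ∈ 𝔅) (q : Q)
    (f : Simp h𝔅 A) : Simp h𝔅 A := ⟨fun x => (f : X → A) (q⁻¹ • x), by
  refine ⟨f.2.1.subset (by rintro _ ⟨x, rfl⟩; exact ⟨_, rfl⟩), fun a => ?_⟩
  exact hQ q⁻¹ _ (f.2.2 a)⟩

/-- the untwisted action -/
def bet [MulAction Q X] (hQ : ∀ (q : Q), ∀ S ∈ 𝔅, (fun x => q • x) ⁻¹' S ∈ 𝔅) :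
    Q →* MulAut (Simp h𝔅 A) where
  toFun q :=
    { toFun := tr h𝔅 hQ q
      invFun := tr h𝔅 hQ q⁻¹
      left_inv := fun f => Subtype.ext (funext fun x => by
        show (f : X → A) (q⁻¹ • (q⁻¹)⁻¹ • x) = _
        rw [smul_inv_smul])
      right_inv := fun f => Subtype.ext (funext fun x => by
        show (f : X → A) ((q⁻¹)⁻¹ • q⁻¹ • x) = _
        rw [inv_smul_smul])
      map_mul' := fun f g => rfl }
  map_one' := MulEquiv.ext fun f => Subtype.ext (funext fun x => by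
    show (f : X → A) ((1 : Q)⁻¹ • x) = (f : X → A) x
    rw [inv_one, one_smul])
  map_mul' q q' := MulEquiv.ext fun f => Subtype.ext (funext fun x => by
    show (f : X → A) ((q * q')⁻¹ • x) = (f : X → A) (q'⁻¹ • q⁻¹ • x)
    rw [mul_inv_rev, mul_smul])

theorem bet_apply [MulAction Q X] (hQ : ∀ (q : Q), ∀ S ∈ 𝔅, (fun x => q • x) ⁻¹' S ∈ 𝔅) (q : Q)
    (f : Simp h𝔅 A) (x : X) :
    ((bet h𝔅 hQ q f : Simp h𝔅 A) : X → A) x = (f : X → A) (q⁻¹ • x) := rfl

/-- functions with a fixed second component -/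
def pr (θ : Q →* MulAut A) (f : Simp h𝔅 A) (q : Q) : Simp h𝔅 (A ⋊[θ] Q) :=
  ⟨fun x => ⟨(f : X → A) x, q⟩, by
    refine ⟨(f.2.1.image (fun a => (⟨a, q⟩ : A ⋊[θ] Q))).subset ?_, fun b => ?_⟩
    · rintro _ ⟨x, rfl⟩
      exact ⟨_, ⟨x, rfl⟩, rfl⟩
    · by_cases h : q = b.right
      · have h1 : (fun x => (⟨(f : X → A) x, q⟩ : A ⋊[θ] Q)) ⁻¹' {b} =
            (f : X → A) ⁻¹' {b.left} := by
          ext x
          simp only [Set.mem_preimage, Set.mem_singleton_iff]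
          exact ⟨fun h2 => congrArg (fun y : A ⋊[θ] Q => y.left) h2,
            fun h2 => SemidirectProduct.ext h2 h⟩
        rw [h1]
        exact f.2.2 _
      · have h1 : (fun x => (⟨(f : X → A) x, q⟩ : A ⋊[θ] Q)) ⁻¹' {b} = (∅ : Set X) := by
          rw [Set.eq_empty_iff_forall_notMem]
          intro x hx
          exact h (congrArg (fun y : A ⋊[θ] Q => y.right) hx)
        rw [h1]
        exact h𝔅.empty⟩

/-- the embedding in the untwisted extension -/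
def unt (θ : Q →* MulAut A) [MulAction Q X] (α : Q →* MulAut (Simp h𝔅 A))
    (hQ : ∀ (q : Q), ∀ S ∈ 𝔅, (fun x => q • x) ⁻¹' S ∈ 𝔅)
    (hα : ∀ (q : Q) (f : Simp h𝔅 A) (x : X),
      ((α q f : Simp h𝔅 A) : X → A) x = θ q ((f : X → A) (q⁻¹ • x))) :
    Simp h𝔅 A ⋊[α] Q →* Simp h𝔅 (A ⋊[θ] Q) ⋊[bet h𝔅 hQ] Q where
  toFun g := ⟨pr h𝔅 θ g.left g.right, g.right⟩
  map_one' := rfl
  map_mul' g g' := by
    refine SemidirectProduct.ext ?_ ?_
    · refine Subtype.ext (funext fun x => ?_)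
      show (⟨((g * g').left : X → A) x, (g * g').right⟩ : A ⋊[θ] Q) =
        (⟨(g.left : X → A) x, g.right⟩ : A ⋊[θ] Q) *
          ⟨(g'.left : X → A) (g.right⁻¹ • x), g'.right⟩
      refine SemidirectProduct.ext ?_ ?_
      · rw [SemidirectProduct.mul_left]
        show _ = (g.left : X → A) x * θ g.right ((g'.left : X → A) (g.right⁻¹ • x))
        rw [← hα]
        rfl
      · rfl
    · rfl

theorem unt_injective [Nonempty X] (θ : Q →* MulAut A) [MulAction Q X]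
    (α : Q →* MulAut (Simp h𝔅 A)) (hQ : ∀ (q : Q), ∀ S ∈ 𝔅, (fun x => q • x) ⁻¹' S ∈ 𝔅)
    (hα : ∀ (q : Q) (f : Simp h𝔅 A) (x : X),
      ((α q f : Simp h𝔅 A) : X → A) x = θ q ((f : X → A) (q⁻¹ • x))) :
    Function.Injective (unt h𝔅 θ α hQ hα) := by
  intro g g' h
  refine SemidirectProduct.ext ?_ ?_
  · refine Subtype.ext (funext fun x => ?_)
    exact congrArg (fun y : Simp h𝔅 (A ⋊[θ] Q) ⋊[bet h𝔅 hQ] Q =>
      ((y.left : X → A ⋊[θ] Q) x).left) h
  · exact congrArg (fun y : Simp h𝔅 (A ⋊[θ] Q) ⋊[bet h𝔅 hQ] Q => y.right) h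

end

/-- the twisted form -/
theorem t_simpt (h : S_SIMP) : S_SIMPT := by
  intro C hC X Q A _ _ _ _ 𝔅 h𝔅 θ α hQ hα
  constructor
  · intro h1
    exact hC.base.of_injective _ _ (emb h𝔅 θ α hα) (emb_injective h𝔅 θ α hα) h1
  · intro h1
    have hCQ : C Q := hC.base.of_injective _ _ (SemidirectProduct.inr : Q →* A ⋊[θ] Q)
      SemidirectProduct.inr_injective h1
    have h2 := h C hC X Q (A ⋊[θ] Q) 𝔅 h𝔅 (bet h𝔅 hQ) hQ (bet_apply h𝔅 hQ) h1 hCQ
    exact hC.base.of_injective _ _ (unt h𝔅 θ α hQ hα) (unt_injective h𝔅 θ α hQ hα) h2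

end Pool.Agent.Y474.FJ
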